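import Pool.Agent.Helper79.KW.OpDefs

/-! Piece OP of MP_715b63_an: operators on `ℓ²(S; H)` and their blocks. -/

open CategoryTheory Topology
open scoped ENNReal

namespace Pool.Agent.KW

universe u v

section OP
variable {S : Type*} {H : Type*} [NormedAddCommGroup H] [InnerProductSpace ℂ H]

namespace OP

/-- evaluation -/
noncomputable abbrev ev (s : S) : L2H S H →L[ℂ] H := lp.evalCLM ℂ (fun _ : S => H) 2 s

theorem ev_apply (s : S) (f : L2H S H) : ev s f = f s := rfl

open Classical in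
theorem inj_eq (t : S) (v : H) : (inj t v : L2H S H) = lp.single 2 t v := rfl

theorem ev_inj_self (t : S) (v : H) : ev t (inj t v : L2H S H) = v := by
  classical
  rw [ev_apply, inj_eq]
  exact lp.single_apply_self _ _ _

theorem ev_inj_ne {s t : S} (h : s ≠ t) (v : H) : ev s (inj t v : L2H S H) = 0 := by
  classical
  rw [ev_apply, inj_eq]
  exact lp.single_apply_ne _ _ _ h

theorem hasSum_inj (f : L2H S H) : HasSum (fun s => (inj s (f s) : L2H S H)) f := by
  classical
  exact lp.hasSum_single (E := fun _ : S => H) (p := 2) ENNReal.ofNat_ne_top f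

theorem inner_inj_left (t : S) (v : H) (f : L2H S H) :
    inner ℂ (inj t v : L2H S H) f = inner ℂ v (f t) := by
  classical
  rw [inj_eq]
  exact lp.inner_single_left (𝕜 := ℂ) (G := fun _ : S => H) t v f

theorem inner_inj_right (t : S) (v : H) (f : L2H S H) :
    inner ℂ f (inj t v : L2H S H) = inner ℂ (f t) v := by
  classical
  rw [inj_eq]
  exact lp.inner_single_right (𝕜 := ℂ) (G := fun _ : S => H) t v f

theorem blk_def (T : L2H S H →L[ℂ] L2H S H) (s t : S) (v : H) :
    blk T s t v = ev s (T (inj t v)) := rfl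

/-- a function in `ℓ²` supported in `Q` -/
theorem eq_sum_inj (f : L2H S H) (Q : Finset S) (hQ : ∀ t ∉ Q, f t = 0) :
    f = ∑ t ∈ Q, inj t (f t) := by
  refine (hasSum_inj f).unique ?_
  refine hasSum_sum_of_ne_finset_zero fun t ht => ?_
  rw [hQ t ht, map_zero]

end OP

open OP

theorem blk_ext (T T' : L2H S H →L[ℂ] L2H S H) (h : ∀ s t, blk T s t = blk T' s t) : T = T' := by
  ext1 f
  have h1 : ∀ t v, T (inj t v) = T' (inj t v) := by
    intro t v
    apply lp.ext
    funext s
    have := congrArg (fun z => z v) (h s t)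
    exact this
  have h2 := (hasSum_inj f).mapL T
  have h3 := (hasSum_inj f).mapL T'
  have h4 : (fun b => T (inj b (f b))) = fun b => T' (inj b (f b)) := funext fun b => h1 b (f b)
  rw [h4] at h2
  exact h2.unique h3

theorem blk_add (T T' : L2H S H →L[ℂ] L2H S H) (s t : S) :
    blk (T + T') s t = blk T s t + blk T' s t := by
  ext v
  simp only [blk_def, add_apply, map_add]

theorem blk_sub (T T' : L2H S H →L[ℂ] L2H S H) (s t : S) :
    blk (T - T') s t = blk T s t - blk T' s t := by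
  ext v
  simp only [blk_def, sub_apply, map_sub]

theorem blk_smul (c : ℂ) (T : L2H S H →L[ℂ] L2H S H) (s t : S) :
    blk (c • T) s t = c • blk T s t := by
  ext v
  simp only [blk_def, smul_apply, map_smul]

theorem blk_sum {κ : Type*} (I : Finset κ) (T : κ → (L2H S H →L[ℂ] L2H S H)) (s t : S) :
    blk (∑ k ∈ I, T k) s t = ∑ k ∈ I, blk (T k) s t := by
  ext v
  simp only [blk_def, sum_apply, map_sum]

/-- the block of a product, when the column of the second factor is finitely supported -/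
theorem blk_mul (T T' : L2H S H →L[ℂ] L2H S H) (s u : S) (Q : Finset S)
    (hQ : ∀ t ∉ Q, blk T' t u = 0) :
    blk (T * T') s u = ∑ t ∈ Q, blk T s t * blk T' t u := by
  ext v
  rw [blk_def, mul_apply_eq_comp, sum_apply]
  have h1 := eq_sum_inj (T' (inj u v)) Q (fun t ht => by
    have := congrArg (fun z => z v) (hQ t ht)
    exact this)
  rw [h1, map_sum, map_sum]
  rfl

variable [CompleteSpace H]

theorem blk_star (T : L2H S H →L[ℂ] L2H S H) (s t : S) :
    blk (star T) s t = star (blk T t s) := by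
  ext v
  refine ext_inner_right ℂ fun w => ?_
  rw [blk_def, ev_apply, ← inner_inj_right, ContinuousLinearMap.star_eq_adjoint,
    ContinuousLinearMap.star_eq_adjoint, ContinuousLinearMap.adjoint_inner_left,
    ContinuousLinearMap.adjoint_inner_left, inner_inj_left, blk_def, ev_apply]


namespace OP

/-- a finite matrix as an operator -/
noncomputable def opM (V : Finset S) (a : V → V → (H →L[ℂ] H)) : L2H S H →L[ℂ] L2H S H :=
  ∑ s : V, ∑ t : V, (inj (s : S)) ∘L (a s t) ∘L (ev (t : S))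

omit [CompleteSpace H] in
theorem opM_apply (V : Finset S) (a : V → V → (H →L[ℂ] H)) (f : L2H S H) :
    opM V a f = ∑ s : V, inj (s : S) (∑ t : V, a s t (f t)) := by
  rw [opM, sum_apply]
  refine Finset.sum_congr rfl fun s _ => ?_
  rw [sum_apply, map_sum]
  rfl

omit [CompleteSpace H] in
theorem ev_opM (V : Finset S) (a : V → V → (H →L[ℂ] H)) (f : L2H S H) (s : V) :
    ev (s : S) (opM V a f) = ∑ t : V, a s t (f t) := by
  rw [opM_apply, map_sum, Finset.sum_eq_single s]
  · exact ev_inj_self _ _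
  · intro s' _ hs'
    exact ev_inj_ne (fun h => hs' (Subtype.ext h.symm)) _
  · intro h
    exact absurd (Finset.mem_univ s) h

omit [CompleteSpace H] in
theorem ev_opM_of_notMem (V : Finset S) (a : V → V → (H →L[ℂ] H)) (f : L2H S H) {s : S}
    (hs : s ∉ V) : ev s (opM V a f) = 0 := by
  rw [opM_apply, map_sum]
  refine Finset.sum_eq_zero fun s' _ => ?_
  exact ev_inj_ne (fun h => hs (by rw [h]; exact s'.2)) _

omit [CompleteSpace H] in
theorem blk_opM (V : Finset S) (a : V → V → (H →L[ℂ] H)) (s t : V) :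
    blk (opM V a) s t = a s t := by
  ext v
  rw [blk_def, ev_opM, Finset.sum_eq_single t]
  · have : (inj (t : S) v : L2H S H) (t : S) = v := ev_inj_self _ _
    rw [this]
  · intro t' _ ht'
    have : (inj (t : S) v : L2H S H) (t' : S) = 0 := ev_inj_ne (fun h => ht' (Subtype.ext h)) _
    rw [this, map_zero]
  · intro h
    exact absurd (Finset.mem_univ t) h

omit [CompleteSpace H] in
theorem blk_opM_of_notMem (V : Finset S) (a : V → V → (H →L[ℂ] H)) (s t : S)
    (h : s ∉ V ∨ t ∉ V) : blk (opM V a) s t = 0 := by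
  ext v
  rw [blk_def]
  by_cases hs : s ∈ V
  · have ht : t ∉ V := by
      rcases h with h | h
      · exact absurd hs h
      · exact h
    have := ev_opM V a (inj t v) ⟨s, hs⟩
    rw [show ev s (opM V a (inj t v)) = _ from this]
    refine Finset.sum_eq_zero fun t' _ => ?_
    have h2 : (inj t v : L2H S H) (t' : S) = 0 := ev_inj_ne (fun h => ht (by rw [← h]; exact t'.2)) _
    rw [h2, map_zero]
  · exact ev_opM_of_notMem V a _ hs

/-- matrices act on `ℓ²(S; H)` -/
noncomputable def opHom (V : Finset S) :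
    CStarMatrix V V (H →L[ℂ] H) →⋆ₙₐ[ℂ] (L2H S H →L[ℂ] L2H S H) where
  toFun M := opM V (fun s t => M s t)
  map_smul' c M := by
    refine blk_ext _ _ fun s t => ?_
    rw [MonoidHom.id_apply, blk_smul]
    by_cases h : s ∈ V ∧ t ∈ V
    · rw [blk_opM V _ ⟨s, h.1⟩ ⟨t, h.2⟩, blk_opM V _ ⟨s, h.1⟩ ⟨t, h.2⟩]
      rfl
    · rw [not_and_or] at h
      rw [blk_opM_of_notMem V _ s t h, blk_opM_of_notMem V _ s t h, smul_zero]
  map_zero' := by
    refine blk_ext _ _ fun s t => ?_
    by_cases h : s ∈ V ∧ t ∈ V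
    · rw [blk_opM V _ ⟨s, h.1⟩ ⟨t, h.2⟩]
      ext v
      rfl
    · rw [not_and_or] at h
      rw [blk_opM_of_notMem V _ s t h]
      ext v
      rfl
  map_add' M N := by
    refine blk_ext _ _ fun s t => ?_
    rw [blk_add]
    by_cases h : s ∈ V ∧ t ∈ V
    · rw [blk_opM V _ ⟨s, h.1⟩ ⟨t, h.2⟩, blk_opM V _ ⟨s, h.1⟩ ⟨t, h.2⟩,
        blk_opM V _ ⟨s, h.1⟩ ⟨t, h.2⟩]
      rfl
    · rw [not_and_or] at h
      rw [blk_opM_of_notMem V _ s t h, blk_opM_of_notMem V _ s t h, blk_opM_of_notMem V _ s t h,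
        add_zero]
  map_mul' M N := by
    classical
    refine blk_ext _ _ fun s t => ?_
    by_cases h : s ∈ V ∧ t ∈ V
    · rw [blk_opM V _ ⟨s, h.1⟩ ⟨t, h.2⟩, blk_mul _ _ s t V fun r hr =>
        blk_opM_of_notMem V _ r t (Or.inl hr), CStarMatrix.mul_apply, ← Finset.sum_coe_sort V]
      refine Finset.sum_congr rfl fun r _ => ?_
      rw [blk_opM V _ ⟨s, h.1⟩ r, blk_opM V _ r ⟨t, h.2⟩]
    · rw [not_and_or] at h
      rw [blk_opM_of_notMem V _ s t h, blk_mul _ _ s t V fun r hr =>
        blk_opM_of_notMem V _ r t (Or.inl hr)]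
      refine (Finset.sum_eq_zero fun r _ => ?_).symm
      rcases h with h | h
      · rw [blk_opM_of_notMem V _ s r (Or.inl h), zero_mul]
      · rw [blk_opM_of_notMem V _ r t (Or.inr h), mul_zero]
  map_star' M := by
    refine blk_ext _ _ fun s t => ?_
    rw [blk_star]
    by_cases h : s ∈ V ∧ t ∈ V
    · rw [blk_opM V _ ⟨s, h.1⟩ ⟨t, h.2⟩, blk_opM V _ ⟨t, h.2⟩ ⟨s, h.1⟩]
      rfl
    · rw [not_and_or] at h
      rw [blk_opM_of_notMem V _ s t h, blk_opM_of_notMem V _ t s h.symm, star_zero]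

theorem norm_opM (V : Finset S) (a : V → V → (H →L[ℂ] H)) : ‖opM V a‖ = matNorm a := by
  rw [matNorm]
  let _ := CStarAlgebra.spectralOrder (H →L[ℂ] H)
  let _ := CStarAlgebra.spectralOrderedRing (H →L[ℂ] H)
  refine NonUnitalStarAlgHom.norm_map (opHom (S := S) (H := H) V) ?_ (CStarMatrix.ofMatrix a)
  intro M N hMN
  refine CStarMatrix.ext fun s t => ?_
  have h1 : opM V (fun s t => M s t) = opM V (fun s t => N s t) := hMN
  rw [← blk_opM V (fun s t => M s t) s t, h1, blk_opM]

/-- truncation to `V` -/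
noncomputable def trunc (V : Finset S) (f : L2H S H) : L2H S H := ∑ t ∈ V, inj t (f t)

omit [CompleteSpace H] in
theorem sum_sq_le (V : Finset S) (f : L2H S H) : ∑ t ∈ V, ‖f t‖ ^ 2 ≤ ‖f‖ ^ 2 := by
  have h := lp.sum_rpow_le_norm_rpow (E := fun _ : S => H) (p := 2) (by norm_num) f V
  simpa using h

omit [CompleteSpace H] in
theorem norm_sum_inj_sq (V : Finset S) (g : S → H) :
    ‖(∑ t ∈ V, inj t (g t) : L2H S H)‖ ^ 2 = ∑ t ∈ V, ‖g t‖ ^ 2 := by
  classical
  have h := lp.norm_sum_single (E := fun _ : S => H) (p := 2) (by norm_num) g V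
  simpa [inj_eq] using h

omit [CompleteSpace H] in
theorem norm_trunc_le (V : Finset S) (f : L2H S H) : ‖trunc V f‖ ≤ ‖f‖ := by
  have h1 := norm_sum_inj_sq V (fun t => f t)
  have h2 := sum_sq_le V f
  rw [← h1] at h2
  exact (sq_le_sq₀ (norm_nonneg _) (norm_nonneg _)).1 h2

omit [CompleteSpace H] in
theorem tendsto_trunc (f : L2H S H) :
    Filter.Tendsto (fun V : Finset S => trunc V f) Filter.atTop (𝓝 f) := hasSum_inj f

omit [CompleteSpace H] in
theorem trunc_trunc {V V' : Finset S} (h : V ⊆ V') (f : L2H S H) :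
    trunc V' (trunc V f) = trunc V f := by
  refine (eq_sum_inj (trunc V f) V' fun t ht => ?_).symm
  rw [trunc, ← ev_apply, map_sum]
  refine Finset.sum_eq_zero fun r hr => ?_
  exact ev_inj_ne (fun he => ht (by rw [he]; exact h hr)) _

omit [CompleteSpace H] in
theorem opM_blk_apply (V : Finset S) (T : L2H S H →L[ℂ] L2H S H) (f : L2H S H) :
    opM V (fun s t => blk T s t) f = trunc V (T (trunc V f)) := by
  rw [opM_apply, trunc, ← Finset.sum_coe_sort V]
  refine Finset.sum_congr rfl fun s _ => ?_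
  congr 1
  rw [trunc, map_sum, ← ev_apply, map_sum, ← Finset.sum_coe_sort V]
  rfl

end OP

/-- compressions have smaller norm -/
theorem matNorm_blk_le (T : L2H S H →L[ℂ] L2H S H) (V : Finset S) :
    matNorm (fun s t : V => blk T s t) ≤ ‖T‖ := by
  rw [← norm_opM]
  refine ContinuousLinearMap.opNorm_le_bound _ (norm_nonneg _) fun f => ?_
  rw [opM_blk_apply]
  exact (norm_trunc_le _ _).trans ((T.le_opNorm _).trans
    (mul_le_mul_of_nonneg_left (norm_trunc_le _ _) (norm_nonneg _)))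

/-- the norm is the supremum of the norms of the compressions -/
theorem norm_le_of_matNorm_blk (T : L2H S H →L[ℂ] L2H S H) (ρ : ℝ) (hρ : 0 ≤ ρ)
    (h : ∀ V : Finset S, matNorm (fun s t : V => blk T s t) ≤ ρ) : ‖T‖ ≤ ρ := by
  refine ContinuousLinearMap.opNorm_le_bound _ hρ fun f => ?_
  have h1 : ∀ V : Finset S, ‖T (trunc V f)‖ ≤ ρ * ‖f‖ := by
    intro V
    have h2 : Filter.Tendsto (fun V' : Finset S => ‖trunc V' (T (trunc V f))‖) Filter.atTop
        (𝓝 ‖T (trunc V f)‖) := (tendsto_trunc _).norm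
    refine le_of_tendsto h2 (Filter.eventually_atTop.2 ⟨V, fun V' hV' => ?_⟩)
    have h3 : trunc V' (T (trunc V f)) = opM V' (fun s t => blk T s t) (trunc V f) := by
      rw [opM_blk_apply, trunc_trunc hV']
    rw [h3]
    refine (ContinuousLinearMap.le_opNorm _ _).trans ?_
    rw [norm_opM]
    exact mul_le_mul (h V') (norm_trunc_le _ _) (norm_nonneg _) hρ
  have h4 : Filter.Tendsto (fun V : Finset S => ‖T (trunc V f)‖) Filter.atTop (𝓝 ‖T f‖) :=
    ((T.continuous.tendsto f).comp (tendsto_trunc f)).norm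
  exact le_of_tendsto h4 (Filter.Eventually.of_forall h1)

/-- a finite matrix as an operator -/
theorem exists_op_of_matrix (V : Finset S) (a : V → V → (H →L[ℂ] H)) :
    ∃ T : L2H S H →L[ℂ] L2H S H, (∀ s t : V, blk T s t = a s t) ∧
      (∀ s t : S, s ∉ V ∨ t ∉ V → blk T s t = 0) ∧ ‖T‖ = matNorm a :=
  ⟨opM V a, blk_opM V a, blk_opM_of_notMem V a, norm_opM V a⟩

omit [CompleteSpace H] in
/-- for `H = ℂ` blocks are matrix coefficients -/
theorem blk_eq_coef (T : L2 S →L[ℂ] L2 S) (s t : S) :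
    blk (H := ℂ) T s t = coef T s t • (1 : ℂ →L[ℂ] ℂ) := by
  classical
  ext
  rw [blk_apply, smul_apply, coef]
  simp

namespace OP

open Classical in
/-- the action of a sparse matrix on functions -/
noncomputable def spFun (a : S → S → (H →L[ℂ] H)) (f : S → H) (s : S) : H :=
  if h : ∃ t, a s t ≠ 0 then a s h.choose (f h.choose) else 0

omit [CompleteSpace H] in
theorem spFun_eq {a : S → S → (H →L[ℂ] H)}
    (hrow : ∀ s t t', a s t ≠ 0 → a s t' ≠ 0 → t = t') (f : S → H) {s t : S} (h : a s t ≠ 0) :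
    spFun a f s = a s t (f t) := by
  have hex : ∃ t, a s t ≠ 0 := ⟨t, h⟩
  rw [spFun, dif_pos hex, hrow s _ _ hex.choose_spec h]

omit [CompleteSpace H] in
theorem spFun_eq_zero {a : S → S → (H →L[ℂ] H)} (f : S → H) {s : S}
    (h : ∀ t, a s t = 0) : spFun a f s = 0 := by
  rw [spFun, dif_neg]
  push Not
  exact h

omit [CompleteSpace H] in
theorem sum_spFun_le {a : S → S → (H →L[ℂ] H)} {C : ℝ} (hC : 0 ≤ C)
    (hrow : ∀ s t t', a s t ≠ 0 → a s t' ≠ 0 → t = t')
    (hcol : ∀ s s' t, a s t ≠ 0 → a s' t ≠ 0 → s = s') (ha : ∀ s t, ‖a s t‖ ≤ C)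
    (f : L2H S H) (V : Finset S) : ∑ s ∈ V, ‖spFun a f s‖ ^ 2 ≤ (C * ‖f‖) ^ 2 := by
  classical
  have hch : ∀ s ∈ V.filter (fun s => ∃ t, a s t ≠ 0), ∃ t, a s t ≠ 0 := fun s hs =>
    (Finset.mem_filter.1 hs).2
  let τ : S → S := fun s => if h : ∃ t, a s t ≠ 0 then h.choose else s
  have hτ : ∀ s, (∃ t, a s t ≠ 0) → a s (τ s) ≠ 0 := by
    intro s hs
    have : τ s = hs.choose := dif_pos hs
    rw [this]
    exact hs.choose_spec
  have h1 : ∑ s ∈ V, ‖spFun a f s‖ ^ 2 =
      ∑ s ∈ V.filter (fun s => ∃ t, a s t ≠ 0), ‖spFun a f s‖ ^ 2 := by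
    rw [Finset.sum_filter_of_ne]
    intro s _ hs
    by_contra hcon
    push Not at hcon
    refine hs ?_
    rw [spFun_eq_zero _ hcon, norm_zero]
    norm_num
  have h2 : ∀ s ∈ V.filter (fun s => ∃ t, a s t ≠ 0),
      ‖spFun a f s‖ ^ 2 ≤ C ^ 2 * ‖f (τ s)‖ ^ 2 := by
    intro s hs
    rw [spFun_eq hrow _ (hτ s (hch s hs)), ← mul_pow]
    refine pow_le_pow_left₀ (norm_nonneg _) ?_ 2
    exact ((a s (τ s)).le_opNorm _).trans
      (mul_le_mul_of_nonneg_right (ha _ _) (norm_nonneg _))
  rw [h1]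
  refine (Finset.sum_le_sum h2).trans ?_
  rw [← Finset.mul_sum, mul_pow]
  refine mul_le_mul_of_nonneg_left ?_ (by positivity)
  have hinj : Set.InjOn τ (V.filter (fun s => ∃ t, a s t ≠ 0) : Finset S) := by
    intro s hs s' hs' hss
    have e1 := hτ s (hch s hs)
    have e2 := hτ s' (hch s' hs')
    rw [← hss] at e2
    exact hcol _ _ _ e1 e2
  have h3 := Finset.sum_image (f := fun t => ‖f t‖ ^ 2) hinj
  rw [← h3]
  exact sum_sq_le _ f

omit [CompleteSpace H] in
theorem spFun_add (a : S → S → (H →L[ℂ] H)) (f g : S → H) (s : S) :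
    spFun a (fun t => f t + g t) s = spFun a f s + spFun a g s := by
  rw [spFun, spFun, spFun]
  split_ifs with h
  · rw [map_add]
  · rw [add_zero]

omit [CompleteSpace H] in
theorem spFun_smul (a : S → S → (H →L[ℂ] H)) (c : ℂ) (f : S → H) (s : S) :
    spFun a (fun t => c • f t) s = c • spFun a f s := by
  rw [spFun, spFun]
  split_ifs with h
  · rw [map_smul]
  · rw [smul_zero]

end OP

omit [CompleteSpace H] in
/-- an operator with at most one nonzero block in each row and column -/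
theorem exists_op_of_sparse (a : S → S → (H →L[ℂ] H)) (C : ℝ) (hC : 0 ≤ C)
    (hrow : ∀ s t t', a s t ≠ 0 → a s t' ≠ 0 → t = t')
    (hcol : ∀ s s' t, a s t ≠ 0 → a s' t ≠ 0 → s = s') (ha : ∀ s t, ‖a s t‖ ≤ C) :
    ∃ T : L2H S H →L[ℂ] L2H S H, (∀ s t, blk T s t = a s t) ∧ ‖T‖ ≤ C := by
  have hmem : ∀ f : L2H S H, Memℓp (spFun a f) 2 := fun f =>
    memℓp_gen' (C := (C * ‖f‖) ^ 2) fun V => by
      have := sum_spFun_le hC hrow hcol ha f V
      simpa using this
  let L : L2H S H →ₗ[ℂ] L2H S H :=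
    { toFun := fun f => ⟨spFun a f, hmem f⟩
      map_add' := fun f g => by
        apply lp.ext
        funext s
        exact spFun_add a f g s
      map_smul' := fun c f => by
        apply lp.ext
        funext s
        exact spFun_smul a c f s }
  have hL : ∀ f, ‖L f‖ ≤ C * ‖f‖ := by
    intro f
    refine lp.norm_le_of_forall_sum_le (by norm_num) (by positivity) fun V => ?_
    have := sum_spFun_le hC hrow hcol ha f V
    have h2 : ∀ x, (L f) x = spFun a f x := fun _ => rfl
    simp only [h2]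
    simpa using this
  refine ⟨L.mkContinuous C hL, fun s t => ?_, L.mkContinuous_norm_le hC hL⟩
  ext v
  have h1 : blk (L.mkContinuous C hL) s t v = spFun a (inj t v : L2H S H) s := rfl
  rw [h1]
  by_cases h : a s t = 0
  · rw [h, zero_apply]
    by_cases h2 : ∃ t', a s t' ≠ 0
    · obtain ⟨t', ht'⟩ := h2
      rw [spFun_eq hrow _ ht']
      have h3 : (inj t v : L2H S H) t' = 0 := ev_inj_ne (fun he => ht' (by rw [he]; exact h)) _
      rw [h3, map_zero]
    · push Not at h2
      exact spFun_eq_zero _ h2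
  · rw [spFun_eq hrow _ h]
    have h3 : (inj t v : L2H S H) t = v := ev_inj_self _ _
    rw [h3]

end OP

end Pool.Agent.KW
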